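import Mathlib

set_option autoImplicit false

noncomputable section

namespace Pool.Agent.Lib.MP_99e35a_al

open MonoidAlgebra

abbrev Wd : Type := FreeMonoid (Fin 3)

abbrev Al (R : Type) [CommRing R] : Type := MonoidAlgebra R Wd

variable {R : Type} [CommRing R]

/-- elements supported on words whose length satisfies `p` -/
def Sup (R : Type) [CommRing R] (p : ℕ → Prop) : Submodule R (Al R) :=
  MonoidAlgebra.supported R R {x : Wd | p x.length}

lemma mem_Sup {p : ℕ → Prop} {a : Al R} :
    a ∈ Sup R p ↔ ∀ x : Wd, ¬ p x.length → a.coeff x = 0 := by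
  unfold Sup
  rw [MonoidAlgebra.mem_supported']
  rfl

lemma single_mem_Sup {p : ℕ → Prop} {x : Wd} (r : R) (h : p x.length) :
    (single x r : Al R) ∈ Sup R p := by
  rw [mem_Sup]
  intro y hy
  have : x ≠ y := by rintro rfl; exact hy h
  simp [this]

lemma Sup_ind {p : ℕ → Prop} {motive : Al R → Prop} (h0 : motive 0)
    (hadd : ∀ a b, motive a → motive b → motive (a + b))
    (hs : ∀ (x : Wd) (r : R), p x.length → motive (single x r)) :
    ∀ a ∈ Sup R p, motive a := by
  intro a ha
  rw [← sum_coeff_single a, Finsupp.sum]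
  refine Finset.sum_induction _ motive hadd h0 ?_
  intro x hx
  apply hs
  by_contra hp
  exact (Finsupp.mem_support_iff.1 hx) (mem_Sup.1 ha x hp)

lemma Sup_mono {p q : ℕ → Prop} (h : ∀ n, p n → q n) {a : Al R} (ha : a ∈ Sup R p) :
    a ∈ Sup R q := by
  rw [mem_Sup] at ha ⊢
  intro x hx
  exact ha x (fun hp => hx (h _ hp))

lemma mem_Sup_true (a : Al R) : a ∈ Sup R (fun _ => True) := by
  rw [mem_Sup]; intro x hx; exact absurd trivial hx

lemma Sup_mul {p q s : ℕ → Prop} (h : ∀ i j, p i → q j → s (i + j)) {a b : Al R}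
    (ha : a ∈ Sup R p) (hb : b ∈ Sup R q) : a * b ∈ Sup R s := by
  refine Sup_ind (motive := fun a => a * b ∈ Sup R s) ?_ ?_ ?_ a ha
  · simp
  · intro a a' h1 h2
    rw [add_mul]; exact add_mem h1 h2
  · intro x r hx
    refine Sup_ind (motive := fun b => single x r * b ∈ Sup R s) ?_ ?_ ?_ b hb
    · simp
    · intro b b' h1 h2
      rw [mul_add]; exact add_mem h1 h2
    · intro y r' hy
      rw [single_mul_single]
      apply single_mem_Sup
      rw [FreeMonoid.length_mul]
      exact h _ _ hx hy

lemma one_mem_Sup {p : ℕ → Prop} (h : p 0) : (1 : Al R) ∈ Sup R p := by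
  rw [one_def]; exact single_mem_Sup _ h

lemma Sup_pow_ge {f : Al R} (hf : f ∈ Sup R (fun n => 1 ≤ n)) (N : ℕ) :
    f ^ N ∈ Sup R (fun n => N ≤ n) := by
  induction N with
  | zero => rw [pow_zero]; exact one_mem_Sup le_rfl
  | succ N ih =>
    rw [pow_succ]
    exact Sup_mul (fun i j hi hj => by omega) ih hf

lemma Sup_pow_eq {w : ℕ} {f : Al R} (hf : f ∈ Sup R (fun n => n = w)) (N : ℕ) :
    f ^ N ∈ Sup R (fun n => n = N * w) := by
  induction N with
  | zero => rw [pow_zero]; exact one_mem_Sup (by simp)
  | succ N ih =>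
    rw [pow_succ]
    exact Sup_mul (fun i j hi hj => by rw [hi, hj]; ring) ih hf

lemma Sup_disjoint {p q : ℕ → Prop} (h : ∀ n, p n → q n → False) {a : Al R}
    (ha : a ∈ Sup R p) (hb : a ∈ Sup R q) : a = 0 := by
  ext x
  by_cases hp : p x.length
  · simpa using mem_Sup.1 hb x (h _ hp)
  · simpa using mem_Sup.1 ha x hp

lemma exists_Sup_le (a : Al R) : ∃ d, a ∈ Sup R (fun n => n ≤ d) := by
  refine ⟨a.coeff.support.sup FreeMonoid.length, ?_⟩
  rw [mem_Sup]
  intro x hx
  by_contra h
  exact hx (Finset.le_sup (f := FreeMonoid.length) (Finsupp.mem_support_iff.2 h))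

/-- the pairing in which words are orthonormal -/
def pair (R : Type) [CommRing R] (φ : Al ℤ) : Al R →ₗ[R] R :=
  (Finsupp.linearCombination R (fun x : Wd => ((φ.coeff x : ℤ) : R))) ∘ₗ
    (MonoidAlgebra.coeffLinearEquiv R).toLinearMap

lemma pair_single (φ : Al ℤ) (x : Wd) (r : R) :
    pair R φ (single x r) = r * ((φ.coeff x : ℤ) : R) := by
  simp [pair]

lemma pair_add_left (φ ψ : Al ℤ) (a : Al R) :
    pair R (φ + ψ) a = pair R φ a + pair R ψ a := by
  induction a using MonoidAlgebra.induction_linear with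
  | zero => simp
  | add a b ha hb => simp only [map_add, ha, hb]; ring
  | single x r => simp only [pair_single, coeff_add, Finsupp.add_apply]; push_cast; ring

lemma pair_zero_left (a : Al R) : pair R 0 a = 0 := by
  induction a using MonoidAlgebra.induction_linear with
  | zero => simp
  | add a b ha hb => simp only [map_add, ha, hb]; ring
  | single x r => simp [pair_single]

lemma pair_smul_left (n : ℤ) (φ : Al ℤ) (a : Al R) :
    pair R (n • φ) a = (n : R) * pair R φ a := by
  induction a using MonoidAlgebra.induction_linear with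
  | zero => simp
  | add a b ha hb => simp only [map_add, ha, hb]; ring
  | single x r =>
    simp only [pair_single, coeff_smul, Finsupp.smul_apply, smul_eq_mul]; push_cast; ring

lemma pair_sum_left {ι : Type} (s : Finset ι) (φ : ι → Al ℤ) (a : Al R) :
    pair R (∑ i ∈ s, φ i) a = ∑ i ∈ s, pair R (φ i) a := by
  classical
  induction s using Finset.induction_on with
  | empty => simp [pair_zero_left]
  | insert i s hi ih => rw [Finset.sum_insert hi, Finset.sum_insert hi, pair_add_left, ih]

lemma pair_eq_zero {p q : ℕ → Prop} (h : ∀ n, p n → q n → False) {φ : Al ℤ} {a : Al R}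
    (hφ : φ ∈ Sup ℤ p) (ha : a ∈ Sup R q) : pair R φ a = 0 := by
  refine Sup_ind (motive := fun a => pair R φ a = 0) ?_ ?_ ?_ a ha
  · simp
  · intro a b h1 h2; simp [h1, h2]
  · intro x r hx
    rw [pair_single, mem_Sup.1 hφ x (fun hp => h _ hp hx)]; simp

lemma word_mul_inj {u y p x : Wd} (h : u.length = y.length) (he : u * p = y * x) :
    u = y ∧ p = x := by
  have := congrArg FreeMonoid.toList he
  rw [FreeMonoid.toList_mul, FreeMonoid.toList_mul] at this
  have h2 := List.append_inj this h
  exact ⟨FreeMonoid.toList.injective h2.1, FreeMonoid.toList.injective h2.2⟩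

lemma coeff_mul_split {w : ℕ} {e : Al R} (he : e ∈ Sup R (fun n => n = w)) (ψ : Al R)
    {y : Wd} (hy : y.length = w) (x : Wd) :
    (e * ψ).coeff (y * x) = e.coeff y * ψ.coeff x := by
  refine Sup_ind (motive := fun e => (e * ψ).coeff (y * x) = e.coeff y * ψ.coeff x)
    ?_ ?_ ?_ e he
  · simp
  · intro a b h1 h2
    rw [add_mul, coeff_add, coeff_add, Finsupp.add_apply, Finsupp.add_apply, h1, h2]; ring
  · intro u r hu
    by_cases huy : u = y
    · subst huy
      rw [coeff_single_mul_eq_mul_coeff x (fun m' _ => by simp)]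
      simp
    · rw [coeff_single_mul_of_forall_mul_ne]
      · simp [huy]
      · intro d hd
        exact huy (word_mul_inj (hu.trans hy.symm) hd).1

lemma pair_mul {w : ℕ} {e : Al ℤ} (he : e ∈ Sup ℤ (fun n => n = w)) (ψ : Al ℤ)
    {a : Al R} (ha : a ∈ Sup R (fun n => n = w)) (b : Al R) :
    pair R (e * ψ) (a * b) = pair R e a * pair R ψ b := by
  refine Sup_ind (motive := fun a => pair R (e * ψ) (a * b) = pair R e a * pair R ψ b)
    ?_ ?_ ?_ a ha
  · simp
  · intro a a' h1 h2
    rw [add_mul, map_add, map_add, h1, h2]; ring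
  · intro y r hy
    induction b using MonoidAlgebra.induction_linear with
    | zero => simp
    | add b b' h1 h2 => rw [mul_add, map_add, map_add, h1, h2]; ring
    | single x r' =>
      rw [single_mul_single, pair_single, pair_single, pair_single, coeff_mul_split he ψ hy]
      push_cast; ring

lemma word_split (u : Wd) {L : ℕ} (h : L ≤ u.length) :
    ∃ u1 u2 : Wd, u = u1 * u2 ∧ u1.length = L ∧ u2.length = u.length - L := by
  refine ⟨FreeMonoid.ofList (u.toList.take L), FreeMonoid.ofList (u.toList.drop L), ?_, ?_, ?_⟩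
  · rw [← FreeMonoid.ofList_append, List.take_append_drop]; rfl
  · show (List.take L u.toList).length = L
    rw [List.length_take]; exact min_eq_left h
  · show (List.drop L u.toList).length = _
    rw [List.length_drop]; rfl

end Pool.Agent.Lib.MP_99e35a_al
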