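import Pool.Agent.Lib.MP_99e35a_al.Basic

set_option autoImplicit false

noncomputable section

namespace Pool.Agent.Lib.MP_99e35a_al

open MonoidAlgebra

/-- the right ideal of elements of length at least `w` invisible to all `e * ψ` -/
def Rid (w : ℕ) (e : Al ℤ) : Submodule ℤ (Al ℤ) where
  carrier := {y | y ∈ Sup ℤ (fun n => w ≤ n) ∧ ∀ ψ x : Al ℤ, pair ℤ (e * ψ) (y * x) = 0}
  add_mem' := by
    rintro a b ⟨ha, ha'⟩ ⟨hb, hb'⟩
    refine ⟨add_mem ha hb, fun ψ x => ?_⟩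
    rw [add_mul, map_add, ha', hb', add_zero]
  zero_mem' := ⟨zero_mem _, fun ψ x => by simp⟩
  smul_mem' := by
    rintro c a ⟨ha, ha'⟩
    refine ⟨Submodule.smul_mem _ c ha, fun ψ x => ?_⟩
    rw [smul_mul_assoc, map_smul, ha', smul_zero]

lemma Rid_mul {w : ℕ} {e y : Al ℤ} (hy : y ∈ Rid w e) (z : Al ℤ) : y * z ∈ Rid w e := by
  refine ⟨Sup_mul (fun i j hi _ => by omega) hy.1 (mem_Sup_true z), fun ψ x => ?_⟩
  rw [mul_assoc]; exact hy.2 ψ _

def Good (w : ℕ) (e : Al ℤ) : Submodule ℤ (Al ℤ) := Sup ℤ (fun n => n < w) ⊔ Rid w e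

lemma split_letter {w : ℕ} (s : Fin 3) {t : Al ℤ} (ht : t ∈ Sup ℤ (fun n => n < w)) :
    ∃ t1 ∈ Sup ℤ (fun n => n < w), ∃ t2 ∈ Sup ℤ (fun n => n = w),
      t * single (FreeMonoid.of s) 1 = t1 + t2 := by
  refine Sup_ind (motive := fun t => ∃ t1 ∈ Sup ℤ (fun n => n < w),
    ∃ t2 ∈ Sup ℤ (fun n => n = w), t * single (FreeMonoid.of s) 1 = t1 + t2) ?_ ?_ ?_ t ht
  · exact ⟨0, zero_mem _, 0, zero_mem _, by simp⟩
  · rintro a b ⟨a1, ha1, a2, ha2, ha⟩ ⟨b1, hb1, b2, hb2, hb⟩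
    refine ⟨a1 + b1, add_mem ha1 hb1, a2 + b2, add_mem ha2 hb2, ?_⟩
    rw [add_mul, ha, hb]; abel
  · intro x r hx
    rw [single_mul_single]
    by_cases h : x.length + 1 < w
    · refine ⟨_, single_mem_Sup _ ?_, 0, zero_mem _, (add_zero _).symm⟩
      rw [FreeMonoid.length_mul, FreeMonoid.length_of]; exact h
    · refine ⟨0, zero_mem _, _, single_mem_Sup _ ?_, (zero_add _).symm⟩
      rw [FreeMonoid.length_mul, FreeMonoid.length_of]; omega

lemma Good_letter {w : ℕ} {e : Al ℤ} (he : e ∈ Sup ℤ (fun n => n = w)) {y : Al ℤ}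
    (hy : y ∈ Good w e) (s : Fin 3) (hk : pair ℤ e (y * single (FreeMonoid.of s) 1) = 0) :
    y * single (FreeMonoid.of s) 1 ∈ Good w e := by
  obtain ⟨t, ht, r, hr, rfl⟩ := Submodule.mem_sup.1 hy
  obtain ⟨t1, ht1, t2, ht2, h12⟩ := split_letter s ht
  have hrs : r * single (FreeMonoid.of s) 1 ∈ Sup ℤ (fun n => w < n) :=
    Sup_mul (q := fun n => n = 1) (fun i j hi hj => by omega) hr.1
      (single_mem_Sup _ (FreeMonoid.length_of s))
  have h1 : pair ℤ e t1 = 0 := pair_eq_zero (fun n h1 h2 => by omega) he ht1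
  have h3 : pair ℤ e (r * single (FreeMonoid.of s) 1) = 0 :=
    pair_eq_zero (fun n h1 h2 => by omega) he hrs
  rw [add_mul, h12, map_add, map_add, h1, h3, zero_add, add_zero] at hk
  have ht2R : t2 ∈ Rid w e := by
    refine ⟨Sup_mono (fun n h => by omega) ht2, fun ψ x => ?_⟩
    rw [pair_mul he ψ ht2, hk, zero_mul]
  rw [add_mul, h12, add_assoc]
  exact Submodule.add_mem_sup ht1 (add_mem ht2R (Rid_mul hr _))

lemma Good_word {w : ℕ} {e : Al ℤ} (he : e ∈ Sup ℤ (fun n => n = w)) (x : Wd) :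
    ∀ y ∈ Good w e, (∀ x' : Wd, x'.length ≤ x.length → pair ℤ e (y * single x' 1) = 0) →
      y * single x 1 ∈ Good w e := by
  induction x using FreeMonoid.inductionOn' with
  | one => intro y hy _; rw [← one_def, mul_one]; exact hy
  | of_mul s x ih =>
    intro y hy hk
    have hlen : (FreeMonoid.of s * x).length = 1 + x.length := by
      rw [FreeMonoid.length_mul, FreeMonoid.length_of]
    have h1 := Good_letter he hy s (hk _ (by rw [hlen, FreeMonoid.length_of]; omega))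
    have h2 := ih _ h1 (fun x' hx' => by
      rw [mul_assoc, single_mul_single, mul_one]
      apply hk
      rw [hlen, FreeMonoid.length_mul, FreeMonoid.length_of]; omega)
    rwa [mul_assoc, single_mul_single, mul_one] at h2

/-- `e` kills the finitely many test elements attached to `f` -/
def Kill (d : ℕ) (f e : Al ℤ) : Prop :=
  ∀ (p q : Wd) (n : ℕ), p.length ≤ d → q.length ≤ d →
    pair ℤ e (single p 1 * f ^ n * single q 1) = 0

lemma Good_pow {w d : ℕ} (hdw : d < w) {e f : Al ℤ} (he : e ∈ Sup ℤ (fun n => n = w))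
    (hf : f ∈ Sup ℤ (fun n => n ≤ d)) (hk : Kill d f e) {p : Wd} (hp : p.length ≤ d) (n : ℕ) :
    single p 1 * f ^ n ∈ Good w e := by
  induction n with
  | zero =>
    rw [pow_zero, mul_one]
    exact Submodule.mem_sup_left (single_mem_Sup _ (by omega))
  | succ n ih =>
    rw [pow_succ, ← mul_assoc]
    refine Sup_ind (motive := fun g => single p 1 * f ^ n * g ∈ Good w e) ?_ ?_ ?_ f hf
    · simp
    · intro a b h1 h2; rw [mul_add]; exact add_mem h1 h2
    · intro x r hx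
      have : (single x r : Al ℤ) = r • single x 1 := by simp
      rw [this, mul_smul_comm]
      refine Submodule.smul_mem _ _ (Good_word he x _ ih (fun x' hx' => ?_))
      exact hk p x' n hp (hx'.trans hx)

lemma Rid_of_Good {w : ℕ} {e y : Al ℤ} (hy : y ∈ Good w e) (hw : y ∈ Sup ℤ (fun n => w ≤ n)) :
    y ∈ Rid w e := by
  obtain ⟨t, ht, r, hr, rfl⟩ := Submodule.mem_sup.1 hy
  have h2 : t ∈ Sup ℤ (fun n => w ≤ n) := by
    have := sub_mem hw hr.1
    rwa [add_sub_cancel_right] at this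
  have : t = 0 := Sup_disjoint (fun n h1 h2 => by omega) ht h2
  rw [this, zero_add]; exact hr

/-- first window property -/
def PA (w d : ℕ) (f φ : Al ℤ) : Prop :=
  ∀ (p : Wd) (N : ℕ) (y : Al ℤ), p.length ≤ d → w ≤ p.length + N →
    pair ℤ φ (single p 1 * f ^ N * y) = 0

/-- second window property -/
def PB (w : ℕ) (f φ : Al ℤ) : Prop :=
  ∀ (u : Wd) (N : ℕ) (y : Al ℤ), 2 * w ≤ N → pair ℤ φ (single u 1 * f ^ N * y) = 0

lemma sandwich_mem {f : Al ℤ} (hf1 : f ∈ Sup ℤ (fun n => 1 ≤ n)) (p : Wd) (N : ℕ) :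
    single p 1 * f ^ N ∈ Sup ℤ (fun n => p.length + N ≤ n) :=
  Sup_mul (p := fun n => n = p.length) (fun i j hi hj => by omega)
    (single_mem_Sup _ rfl) (Sup_pow_ge hf1 N)

lemma PA_one {w d : ℕ} (hw : 1 ≤ w) {f : Al ℤ} (hf1 : f ∈ Sup ℤ (fun n => 1 ≤ n)) :
    PA w d f 1 := by
  intro p N y _ hN
  refine pair_eq_zero (p := fun n => n = 0) (q := fun n => 1 ≤ n) (fun n h1 h2 => by omega)
    (one_mem_Sup rfl) ?_
  exact Sup_mul (fun i j hi _ => by omega) (sandwich_mem hf1 p N) (mem_Sup_true y)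

lemma PB_one {w : ℕ} (hw : 1 ≤ w) {f : Al ℤ} (hf1 : f ∈ Sup ℤ (fun n => 1 ≤ n)) :
    PB w f 1 := by
  intro p N y hN
  refine pair_eq_zero (p := fun n => n = 0) (q := fun n => 1 ≤ n) (fun n h1 h2 => by omega)
    (one_mem_Sup rfl) ?_
  exact Sup_mul (fun i j hi _ => by omega) (sandwich_mem hf1 p N) (mem_Sup_true y)

lemma PA_mul {w d : ℕ} (hdw : d < w) {e f : Al ℤ} (he : e ∈ Sup ℤ (fun n => n = w))
    (hf1 : f ∈ Sup ℤ (fun n => 1 ≤ n)) (hf : f ∈ Sup ℤ (fun n => n ≤ d)) (hk : Kill d f e)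
    (ψ : Al ℤ) : PA w d f (e * ψ) := by
  intro p N y hp hN
  have h1 := Good_pow hdw he hf hk hp N
  exact (Rid_of_Good h1 (Sup_mono (fun n h => by omega) (sandwich_mem hf1 p N))).2 ψ y

lemma pair_split {w : ℕ} {e : Al ℤ} (he : e ∈ Sup ℤ (fun n => n = w)) (ψ : Al ℤ)
    {u1 : Wd} (h1 : u1.length = w) (u2 : Wd) (g y : Al ℤ) :
    pair ℤ (e * ψ) (single (u1 * u2) 1 * g * y) =
      pair ℤ e (single u1 1) * pair ℤ ψ (single u2 1 * g * y) := by
  rw [← pair_mul he ψ (single_mem_Sup _ h1), ← mul_assoc, ← mul_assoc, single_mul_single, mul_one]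

lemma PQ {w d : ℕ} (hw : 1 ≤ w) {e f ψ : Al ℤ} (he : e ∈ Sup ℤ (fun n => n = w))
    (hf1 : f ∈ Sup ℤ (fun n => 1 ≤ n)) (hf : f ∈ Sup ℤ (fun n => n ≤ d)) (hA : PA w d f ψ)
    (N : ℕ) : ∀ (u : Wd) (y : Al ℤ), u.length ≤ w + d → 2 * w ≤ u.length + N →
      pair ℤ (e * ψ) (single u 1 * f ^ N * y) = 0 := by
  have big : ∀ (N : ℕ) (u : Wd) (y : Al ℤ), w ≤ u.length → u.length ≤ w + d →
      2 * w ≤ u.length + N → pair ℤ (e * ψ) (single u 1 * f ^ N * y) = 0 := by
    intro N u y h0 h1 h2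
    obtain ⟨u1, u2, rfl, h3, h4⟩ := word_split u h0
    rw [pair_split he ψ h3, hA u2 N y (by omega) (by omega), mul_zero]
  induction N with
  | zero =>
    intro u y h1 h2
    exact big 0 u y (by omega) h1 h2
  | succ N ih =>
    intro u y h1 h2
    by_cases h0 : w ≤ u.length
    · exact big _ u y h0 h1 h2
    · have hf2 : f ∈ Sup ℤ (fun n => 1 ≤ n ∧ n ≤ d) := by
        rw [mem_Sup] at hf1 hf ⊢
        intro x hx
        by_cases h : 1 ≤ x.length
        · exact hf x (fun h' => hx ⟨h, h'⟩)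
        · exact hf1 x h
      rw [pow_succ', ← mul_assoc]
      refine Sup_ind (motive := fun g => pair ℤ (e * ψ) (single u 1 * g * f ^ N * y) = 0)
        ?_ ?_ ?_ f hf2
      · simp
      · intro a b h1 h2
        rw [mul_add, add_mul, add_mul, map_add, h1, h2, add_zero]
      · intro x r hx
        have : (single x r : Al ℤ) = r • single x 1 := by simp
        rw [this, mul_smul_comm, smul_mul_assoc, smul_mul_assoc, map_smul, single_mul_single,
          mul_one, ih _ y, smul_zero]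
        · rw [FreeMonoid.length_mul]; omega
        · rw [FreeMonoid.length_mul]; omega

lemma PB_mul {w d : ℕ} (hw : 1 ≤ w) {e f ψ : Al ℤ} (he : e ∈ Sup ℤ (fun n => n = w))
    (hf1 : f ∈ Sup ℤ (fun n => 1 ≤ n)) (hf : f ∈ Sup ℤ (fun n => n ≤ d)) (hA : PA w d f ψ)
    (hB : PB w f ψ) : PB w f (e * ψ) := by
  intro u N y hN
  by_cases h0 : w ≤ u.length
  · obtain ⟨u1, u2, rfl, h3, _⟩ := word_split u h0
    rw [pair_split he ψ h3, hB u2 N y hN, mul_zero]
  · exact PQ hw he hf1 hf hA N u y (by omega) (by omega)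

/-- substitution of `e i` for the letter `i` -/
def Th (e : Fin 3 → Al ℤ) : Al ℤ →ₐ[ℤ] Al ℤ :=
  MonoidAlgebra.lift ℤ (Al ℤ) Wd (FreeMonoid.lift e)

lemma PAB_word {w d : ℕ} (hdw : d < w) {e : Fin 3 → Al ℤ} {f : Al ℤ}
    (he : ∀ i, e i ∈ Sup ℤ (fun n => n = w))
    (hf1 : f ∈ Sup ℤ (fun n => 1 ≤ n)) (hf : f ∈ Sup ℤ (fun n => n ≤ d))
    (hk : ∀ i, Kill d f (e i)) (x : Wd) :
    PA w d f (FreeMonoid.lift e x) ∧ PB w f (FreeMonoid.lift e x) := by
  have hw : 1 ≤ w := by omega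
  induction x using FreeMonoid.inductionOn' with
  | one => rw [map_one]; exact ⟨PA_one hw hf1, PB_one hw hf1⟩
  | of_mul s x ih =>
    rw [map_mul, FreeMonoid.lift_eval_of]
    exact ⟨PA_mul hdw (he s) hf1 hf (hk s) _, PB_mul hw (he s) hf1 hf ih.1 ih.2⟩

theorem PB_Th {w d : ℕ} (hdw : d < w) {e : Fin 3 → Al ℤ} {f : Al ℤ}
    (he : ∀ i, e i ∈ Sup ℤ (fun n => n = w))
    (hf1 : f ∈ Sup ℤ (fun n => 1 ≤ n)) (hf : f ∈ Sup ℤ (fun n => n ≤ d))
    (hk : ∀ i, Kill d f (e i)) (g : Al ℤ) : PB w f (Th e g) := by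
  induction g using MonoidAlgebra.induction_linear with
  | zero => intro u N y _; rw [map_zero, pair_zero_left]
  | add a b ha hb =>
    intro u N y hN
    rw [map_add, pair_add_left, ha u N y hN, hb u N y hN, add_zero]
  | single x r =>
    intro u N y hN
    rw [Th, MonoidAlgebra.lift_single, pair_smul_left, (PAB_word hdw he hf1 hf hk x).2 u N y hN,
      mul_zero]

lemma Th_range_le {e e' : Fin 3 → Al ℤ} (h : ∀ i, e' i ∈ (Th e).range) :
    (Th e').range ≤ (Th e).range := by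
  rintro _ ⟨g, rfl⟩
  induction g using MonoidAlgebra.induction_linear with
  | zero => simp
  | add a b ha hb =>
    have : (Th e').toRingHom (a + b) = (Th e').toRingHom a + (Th e').toRingHom b := map_add _ _ _
    rw [this]; exact add_mem ha hb
  | single x r =>
    show Th e' (single x r) ∈ _
    have hs : Th e' (single x r) = r • FreeMonoid.lift e' x := by
      rw [Th, MonoidAlgebra.lift_single]
    rw [hs]
    refine Subalgebra.smul_mem _ ?_ _
    clear hs
    induction x using FreeMonoid.inductionOn' with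
    | one => rw [map_one]; exact one_mem _
    | of_mul s x ih => rw [map_mul, FreeMonoid.lift_eval_of]; exact mul_mem (h s) ih

lemma mem_Th_range (e : Fin 3 → Al ℤ) (i : Fin 3) : e i ∈ (Th e).range :=
  ⟨single (FreeMonoid.of i) 1, by
    show Th e _ = _
    rw [Th, MonoidAlgebra.lift_single, FreeMonoid.lift_eval_of, one_smul]⟩

end Pool.Agent.Lib.MP_99e35a_al
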