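import Pool.Agent.Lib.MP_99e35a_al.Tower

set_option autoImplicit false

noncomputable section

namespace Pool.Agent.Lib.MP_99e35a_al.Gen

open Pool.Agent.Lib.MP_99e35a_al

open MonoidAlgebra

variable {Kf : Type} [Field Kf]

def lam (ι : Po →+* Kf) (i : Fin 3) : Kf := ι (MvPolynomial.X i)

/-- the generic linear combination of the three letters -/
def cc (ι : Po →+* Kf) : Al Kf := ∑ i : Fin 3, single (FreeMonoid.of i) (lam ι i)

def io (Kf : Type) [Field Kf] : Al ℤ →+* Al Kf := MonoidAlgebra.mapRingHom Wd (Int.castRingHom Kf)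

lemma io_single (x : Wd) (r : ℤ) : io Kf (single x r) = single x (r : Kf) := by
  simp [io]

lemma pair_io (φ y : Al ℤ) : pair Kf φ (io Kf y) = ((pair ℤ φ y : ℤ) : Kf) := by
  induction y using MonoidAlgebra.induction_linear with
  | zero => simp
  | add a b ha hb => simp only [map_add, ha, hb]; push_cast; ring
  | single x r => rw [io_single, pair_single, pair_single]; push_cast; rfl

lemma cc_hom (ι : Po →+* Kf) : cc ι ∈ Sup Kf (fun n => n = 1) :=
  Submodule.sum_mem _ (fun i _ => single_mem_Sup _ (FreeMonoid.length_of i))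

lemma cc_coeff (ι : Po →+* Kf) (i : Fin 3) : (cc ι).coeff (FreeMonoid.of i) = lam ι i := by
  rw [cc, coeff_sum, Finsupp.finsetSum_apply, Finset.sum_eq_single i]
  · simp
  · intro j _ hj
    have : FreeMonoid.of j ≠ FreeMonoid.of i := fun h => hj (FreeMonoid.of_injective h)
    simp [this]
  · intro h; exact absurd (Finset.mem_univ _) h

lemma cc_pow_coeff (ι : Po →+* Kf) (x : Wd) :
    (cc ι ^ x.length).coeff x = FreeMonoid.lift (lam ι) x := by
  induction x using FreeMonoid.inductionOn' with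
  | one => simp [one_def]
  | of_mul s x ih =>
    rw [FreeMonoid.length_mul, FreeMonoid.length_of, add_comm, pow_succ',
      coeff_mul_split (cc_hom ι) _ (FreeMonoid.length_of s), cc_coeff, ih, map_mul,
      FreeMonoid.lift_eval_of]

lemma pair_single_left (x : Wd) (a : Al Kf) : pair Kf (single x 1) a = a.coeff x := by
  induction a using MonoidAlgebra.induction_linear with
  | zero => simp
  | add a b ha hb => simp only [map_add, ha, hb, coeff_add, Finsupp.add_apply]
  | single y r =>
    rw [pair_single]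
    by_cases h : x = y
    · subst h; simp
    · have h' : y ≠ x := fun h' => h h'.symm
      simp [h, h']

lemma pair_cc (ι : Po →+* Kf) {m : ℕ} {φ : Al ℤ} (hφ : φ ∈ Sup ℤ (fun n => n = m)) :
    pair Kf φ (cc ι ^ m) = ι (ev φ) := by
  refine Sup_ind (motive := fun φ => pair Kf φ (cc ι ^ m) = ι (ev φ)) ?_ ?_ ?_ φ hφ
  · simp [pair_zero_left]
  · intro a b h1 h2; rw [pair_add_left, map_add, map_add, h1, h2]
  · intro x r hx
    have : (single x r : Al ℤ) = r • single x 1 := by simp
    rw [this, pair_smul_left, pair_single_left, ← hx, cc_pow_coeff, map_smul, ev,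
      MonoidAlgebra.lift_single, one_smul, zsmul_eq_mul, map_mul, map_intCast]
    congr 1
    exact (FreeMonoid.hom_map_lift ι.toMonoidHom _ x).symm

/-- the two-sided ideal cut out by the functionals, as a left ideal -/
def Id2 (Kf : Type) [Field Kf] (φ : ℕ → Al ℤ) : Ideal (Al Kf) where
  carrier := {a | ∀ (k : ℕ) (u y : Al Kf), pair Kf (φ k) (u * a * y) = 0}
  add_mem' := by
    intro a b ha hb k u y
    rw [mul_add, add_mul, map_add, ha, hb, add_zero]
  zero_mem' := by intro k u y; simp
  smul_mem' := by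
    intro c a ha k u y
    rw [smul_eq_mul, ← mul_assoc]; exact ha k _ y

lemma Id2_mul {φ : ℕ → Al ℤ} {a : Al Kf} (ha : a ∈ Id2 Kf φ) (z : Al Kf) : a * z ∈ Id2 Kf φ := by
  intro k u y
  rw [← mul_assoc, mul_assoc _ z]; exact ha k u _

lemma io_mem_Id2 {φ : ℕ → Al ℤ} {g : Al ℤ}
    (h : ∀ (k : ℕ) (u : Wd) (y : Al ℤ), pair ℤ (φ k) (single u 1 * g * y) = 0) :
    io Kf g ∈ Id2 Kf φ := by
  intro k u y
  induction u using MonoidAlgebra.induction_linear with
  | zero => simp
  | add a b ha hb => rw [add_mul, add_mul, map_add, ha, hb, add_zero]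
  | single u r =>
    induction y using MonoidAlgebra.induction_linear with
    | zero => simp
    | add a b ha hb => rw [mul_add, map_add, ha, hb, add_zero]
    | single y r' =>
      have h1 : (single u r : Al Kf) = r • io Kf (single u 1) := by simp [io_single]
      have h2 : (single y r' : Al Kf) = r' • io Kf (single y 1) := by simp [io_single]
      rw [h1, h2, smul_mul_assoc, smul_mul_assoc, mul_smul_comm, ← map_mul, ← map_mul, map_smul,
        map_smul, pair_io, h]
      simp

lemma proper (ι : Po →+* Kf) (hι : Function.Injective ι) {w : ℕ → ℕ} {φ : ℕ → Al ℤ}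
    (hw : StrictMono w)
    (hφ : ∀ k, φ k ∈ Sup ℤ (fun n => n = w k)) (hne : ∀ k, ev (φ k) ≠ 0) :
    Id2 Kf φ ⊔ Ideal.span {1 - cc ι} ≠ ⊤ := by
  intro htop
  have h1 : (1 : Al Kf) ∈ Id2 Kf φ ⊔ Ideal.span {1 - cc ι} := by rw [htop]; trivial
  obtain ⟨i, hi, j, hj, hij⟩ := Submodule.mem_sup.1 h1
  obtain ⟨r, rfl⟩ := Ideal.mem_span_singleton'.1 hj
  obtain ⟨D, hD⟩ := exists_Sup_le r
  set k := D + 1 with hk
  have hm : D < w k := lt_of_lt_of_le (by omega) (hw.le_apply (x := k))
  set m := w k with hmdef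
  set S := ∑ j ∈ Finset.range (m + 1), cc ι ^ j with hS
  have h2 : S = i * S + (r - r * cc ι ^ (m + 1)) := by
    calc S = (i + r * (1 - cc ι)) * S := by rw [hij, one_mul]
      _ = i * S + r * ((1 - cc ι) * S) := by rw [add_mul, mul_assoc]
      _ = _ := by rw [hS, mul_neg_geom_sum, mul_sub, mul_one]
  have h3 : pair Kf (φ k) S = ι (ev (φ k)) := by
    rw [hS, map_sum, Finset.sum_eq_single m, pair_cc ι (hφ k)]
    · intro j _ hj
      exact pair_eq_zero (q := fun n => n = j * 1) (fun n h1 h2 => by omega) (hφ k)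
        (Sup_pow_eq (cc_hom ι) j)
    · intro h; exact absurd (Finset.mem_range.2 (Nat.lt_succ_self m)) h
  have h4 : pair Kf (φ k) (i * S) = 0 := by
    have := hi k 1 S
    rwa [one_mul] at this
  have h5 : pair Kf (φ k) r = 0 := pair_eq_zero (fun n h1 h2 => by omega) (hφ k) hD
  have h6 : pair Kf (φ k) (r * cc ι ^ (m + 1)) = 0 :=
    pair_eq_zero (q := fun n => m < n) (fun n h1 h2 => by omega) (hφ k)
      (Sup_mul (fun a b _ hb => by omega) (mem_Sup_true r) (Sup_pow_eq (cc_hom ι) (m + 1)))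
  rw [h2, map_add, map_sub, h4, h5, h6, sub_zero, add_zero] at h3
  exact hne k (hι (by rw [← h3, map_zero]))

theorem exists_module (ι : Po →+* Kf) (hι : Function.Injective ι) :
    ∃ (M : Ideal (Al Kf)), M.IsMaximal ∧ 1 - cc ι ∈ M ∧
    ∀ f ∈ Sup ℤ (fun n => 1 ≤ n), ∃ N, ∀ z : Al Kf, io Kf f ^ N * z ∈ M := by
  obtain ⟨w, φ, hw, hφ, hne, hnil⟩ := tower
  obtain ⟨M, hM, hle⟩ := Ideal.exists_le_maximal _ (proper ι hι hw hφ hne)
  refine ⟨M, hM, hle (Submodule.mem_sup_right (Ideal.subset_span rfl)), fun f hf => ?_⟩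
  obtain ⟨N, hN⟩ := hnil f hf
  refine ⟨N, fun z => hle (Submodule.mem_sup_left (Id2_mul ?_ z))⟩
  rw [← map_pow]
  exact io_mem_Id2 hN

theorem counterexample (ι : Po →+* Kf) (hι : Function.Injective ι) :
    ∃ (V : Type) (_ : AddCommGroup V) (_ : Module Kf V)
      (ρ : Representation Kf (FreeGroup (Fin 3)) V),
      Nontrivial V ∧
      (∀ W : Submodule Kf V, (∀ g, ∀ v ∈ W, ρ g v ∈ W) → W = ⊥ ∨ W = ⊤) ∧
      (∀ g, ∃ n : ℕ, (ρ g - 1) ^ n = 0) ∧ ¬ ∀ g, ρ g = 1 := by
  obtain ⟨M, hM, hc, hnil⟩ := exists_module ι hι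
  let V := Al Kf ⧸ M
  have hsimple : IsSimpleModule (Al Kf) V := isSimpleModule_iff_isCoatom.2 hM.out
  let act : Al Kf →ₐ[Kf] Module.End Kf V := Algebra.lsmul Kf Kf V
  have hact : ∀ (a : Al Kf) (v : V), act a v = a • v := fun a v => rfl
  let θ : Al ℤ →+* Module.End Kf V := act.toRingHom.comp (io Kf)
  have hθ : ∀ f, θ f = act (io Kf f) := fun f => rfl
  have hθnil : ∀ f ∈ Sup ℤ (fun n => 1 ≤ n), ∃ N, θ f ^ N = 0 := by
    intro f hf
    obtain ⟨N, hN⟩ := hnil f hf
    refine ⟨N, LinearMap.ext fun v => ?_⟩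
    obtain ⟨z, rfl⟩ := Submodule.Quotient.mk_surjective M v
    rw [hθ, ← map_pow, hact, LinearMap.zero_apply, ← Submodule.Quotient.mk_smul, smul_eq_mul,
      Submodule.Quotient.mk_eq_zero]
    exact hN z
  have hinv : ∀ f ∈ Sup ℤ (fun n => 1 ≤ n), ∃ f' ∈ Sup ℤ (fun n => 1 ≤ n),
      (1 + θ f) * (1 + θ f') = 1 ∧ (1 + θ f') * (1 + θ f) = 1 := by
    intro f hf
    obtain ⟨N, hN⟩ := hθnil f hf
    have hS : 1 + θ (-f * ∑ j ∈ Finset.range N, (-f) ^ j) =
        ∑ j ∈ Finset.range (N + 1), (-θ f) ^ j := by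
      rw [Finset.sum_range_succ', pow_zero, add_comm, map_mul, map_sum, Finset.mul_sum]
      congr 1
      refine Finset.sum_congr rfl (fun j _ => ?_)
      rw [map_pow, map_neg, pow_succ']
    have hz : (-θ f) ^ (N + 1) = 0 := by
      have h7 : (-f) ^ (N + 1) = (-1) ^ (N + 1) * (f ^ N * f) := by
        rw [neg_pow, pow_succ f]
      rw [← map_neg, ← map_pow, h7, map_mul, map_mul, map_pow θ f, hN, zero_mul, mul_zero]
    refine ⟨-f * ∑ j ∈ Finset.range N, (-f) ^ j,
      Sup_mul (fun a b ha _ => by omega) (neg_mem hf) (mem_Sup_true _), ?_, ?_⟩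
    · rw [hS]
      have := mul_neg_geom_sum (-θ f) (N + 1)
      rwa [sub_neg_eq_add, hz, sub_zero] at this
    · rw [hS]
      have := geom_sum_mul_neg (-θ f) (N + 1)
      rwa [sub_neg_eq_add, hz, sub_zero] at this
  let G : Subgroup (Module.End Kf V)ˣ :=
    { carrier := {g | ∃ f ∈ Sup ℤ (fun n => 1 ≤ n), (g : Module.End Kf V) = 1 + θ f}
      mul_mem' := by
        rintro a b ⟨f, hf, ha⟩ ⟨f', hf', hb⟩
        refine ⟨f + f' + f * f', add_mem (add_mem hf hf')
          (Sup_mul (fun a b ha _ => by omega) hf hf'), ?_⟩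
        rw [Units.val_mul, ha, hb, map_add, map_add, map_mul]
        noncomm_ring
      one_mem' := ⟨0, zero_mem _, by simp⟩
      inv_mem' := by
        rintro a ⟨f, hf, ha⟩
        obtain ⟨f', hf', h1, _⟩ := hinv f hf
        refine ⟨f', hf', ?_⟩
        rw [← ha] at h1
        exact Units.inv_eq_of_mul_eq_one_right h1 }
  let ρ0 : Representation Kf G V := (Units.coeHom (Module.End Kf V)).comp G.subtype
  have hρ : ∀ g : G, ρ0 g = (g.1 : Module.End Kf V) := fun g => rfl
  have hlet0 : ∀ i : Fin 3, ∃ g : G, ρ0 g = 1 + act (single (FreeMonoid.of i) 1) := by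
    intro i
    have hf : (single (FreeMonoid.of i) 1 : Al ℤ) ∈ Sup ℤ (fun n => 1 ≤ n) :=
      single_mem_Sup _ (FreeMonoid.length_of i).ge
    obtain ⟨f', hf', h1, h2⟩ := hinv _ hf
    refine ⟨⟨⟨_, _, h1, h2⟩, _, hf, rfl⟩, ?_⟩
    rw [hρ]
    show 1 + θ _ = _
    rw [hθ, io_single, Int.cast_one]
  choose gen hgen using hlet0
  let ρ : Representation Kf (FreeGroup (Fin 3)) V := ρ0.comp (FreeGroup.lift gen)
  have hρ' : ∀ g, ρ g = ρ0 (FreeGroup.lift gen g) := fun g => rfl
  have hlet : ∀ i : Fin 3, ∃ g, ρ g = 1 + act (single (FreeMonoid.of i) 1) := by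
    intro i
    exact ⟨FreeGroup.of i, by rw [hρ', FreeGroup.lift_apply_of, hgen]⟩
  refine ⟨V, inferInstance, inferInstance, ρ,
    IsSimpleModule.nontrivial (Al Kf) V, ?_, ?_, ?_⟩
  · intro W hW
    have hl : ∀ (i : Fin 3), ∀ v ∈ W, (single (FreeMonoid.of i) 1 : Al Kf) • v ∈ W := by
      intro i v hv
      obtain ⟨g, hg⟩ := hlet i
      have h1 := sub_mem (hW g v hv) hv
      rwa [hg, LinearMap.add_apply, Module.End.one_apply, add_sub_cancel_left, hact] at h1
    have hw : ∀ (x : Wd), ∀ v ∈ W, (single x 1 : Al Kf) • v ∈ W := by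
      intro x
      induction x using FreeMonoid.inductionOn' with
      | one => intro v hv; rw [← one_def, one_smul]; exact hv
      | of_mul s x ih =>
        intro v hv
        have : (single (FreeMonoid.of s * x) 1 : Al Kf) =
            single (FreeMonoid.of s) 1 * single x 1 := by rw [single_mul_single, mul_one]
        rw [this, mul_smul]
        exact hl s _ (ih v hv)
    let W' : Submodule (Al Kf) V :=
      { carrier := W
        add_mem' := fun ha hb => W.add_mem ha hb
        zero_mem' := W.zero_mem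
        smul_mem' := by
          intro a v hv
          induction a using MonoidAlgebra.induction_linear with
          | zero => rw [zero_smul]; exact W.zero_mem
          | add a b ha hb => rw [add_smul]; exact W.add_mem ha hb
          | single x r =>
            have : (single x r : Al Kf) = r • single x 1 := by simp
            rw [this, smul_assoc]
            exact W.smul_mem r (hw x v hv) }
    rcases eq_bot_or_eq_top W' with h | h
    · left
      rw [eq_bot_iff]
      intro v hv
      have : v ∈ W' := hv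
      rw [h] at this
      simpa using this
    · right
      rw [eq_top_iff]
      intro v _
      have : v ∈ W' := by rw [h]; trivial
      exact this
  · intro g0
    obtain ⟨f, hf, hg⟩ := (FreeGroup.lift gen g0).2
    obtain ⟨N, hN⟩ := hθnil f hf
    refine ⟨N, ?_⟩
    rw [hρ', hρ, hg, add_sub_cancel_left, hN]
  · intro h
    have h0 : ∀ i : Fin 3, act (single (FreeMonoid.of i) 1) = 0 := by
      intro i
      obtain ⟨g, hg⟩ := hlet i
      rw [h g] at hg
      exact (add_eq_left.1 hg.symm)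
    have h1 : act (cc ι) = 0 := by
      rw [cc, map_sum]
      refine Finset.sum_eq_zero (fun i _ => ?_)
      have : (single (FreeMonoid.of i) (lam ι i) : Al Kf) =
          lam ι i • single (FreeMonoid.of i) 1 := by simp
      rw [this, map_smul, h0, smul_zero]
    have h2 : cc ι ∈ M := by
      have := hact (cc ι) (Submodule.Quotient.mk 1)
      rw [h1, LinearMap.zero_apply, ← Submodule.Quotient.mk_smul, smul_eq_mul, mul_one] at this
      exact (Submodule.Quotient.mk_eq_zero M).1 this.symm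
    have h3 : (1 : Al Kf) ∈ M := by
      have := M.add_mem hc h2
      rwa [sub_add_cancel] at this
    exact hM.ne_top ((Ideal.eq_top_iff_one M).2 h3)

theorem exists_inj (k : Type) [Field k] [CharZero k] (h : 3 ≤ Algebra.trdeg ℚ k) :
    ∃ ι : Po →+* k, Function.Injective ι := by
  obtain ⟨s, x, hx⟩ := exists_isTranscendenceBasis' ℚ k
  rw [← hx.cardinalMk_eq_trdeg] at h
  have h3 : Cardinal.mk (Fin 3) ≤ Cardinal.mk s := by simpa using h
  obtain ⟨e⟩ := (Cardinal.le_def _ _).1 h3
  have hy : AlgebraicIndependent ℚ (x ∘ e) := hx.1.comp e e.injective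
  refine ⟨(MvPolynomial.aeval (R := ℚ) (x ∘ e)).toRingHom.comp
    (MvPolynomial.map (Int.castRingHom ℚ)), ?_⟩
  have h1 : Function.Injective (MvPolynomial.aeval (R := ℚ) (x ∘ e)) := hy
  exact h1.comp (MvPolynomial.map_injective _ (RingHom.injective_int _))

end Pool.Agent.Lib.MP_99e35a_al.Gen
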