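import Pool.Agent.Lib.MP_99e35a_al.Chop

set_option autoImplicit false

noncomputable section

namespace Pool.Agent.Lib.MP_99e35a_al

open MonoidAlgebra

abbrev Po : Type := MvPolynomial (Fin 3) ℤ

/-- abelianization -/
def ev : Al ℤ →ₐ[ℤ] Po :=
  MonoidAlgebra.lift ℤ Po Wd (FreeMonoid.lift (fun i => MvPolynomial.X i))

def mo : MonomialOrder (Fin 3) := MonomialOrder.lex

lemma sum_degree {ι : Type} [Fintype ι] (P : ι → Po) (hP : ∀ t, P t ≠ 0)
    (hinj : Function.Injective (fun t => mo.degree (P t))) (κ : ι → ℤ) (hκ : ∃ t, κ t ≠ 0) :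
    ∃ t, (∑ s, κ s • P s) ≠ 0 ∧ mo.degree (∑ s, κ s • P s) = mo.degree (P t) := by
  classical
  obtain ⟨t0, ht0, hmax⟩ := Finset.exists_max_image (Finset.univ.filter (fun t => κ t ≠ 0))
    (fun t => mo.toSyn (mo.degree (P t))) (by
      obtain ⟨t, ht⟩ := hκ
      exact ⟨t, by simpa using ht⟩)
  have hk0 : κ t0 ≠ 0 := by simpa using ht0
  have hc : (∑ s, κ s • P s).coeff (mo.degree (P t0)) ≠ 0 := by
    rw [MvPolynomial.coeff_sum, Finset.sum_eq_single t0]
    · rw [MvPolynomial.coeff_smul, smul_eq_mul]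
      exact mul_ne_zero hk0 (mo.coeff_degree_ne_zero_iff.2 (hP t0))
    · intro s _ hs
      rw [MvPolynomial.coeff_smul, smul_eq_mul]
      by_cases hks : κ s = 0
      · rw [hks, zero_mul]
      · have h1 := hmax s (by simpa using hks)
        have h2 : mo.toSyn (mo.degree (P s)) ≠ mo.toSyn (mo.degree (P t0)) := by
          intro h
          exact hs (hinj (mo.toSyn.injective h))
        rw [mo.coeff_eq_zero_of_lt (lt_of_le_of_ne h1 h2), mul_zero]
    · intro h; exact absurd (Finset.mem_univ _) h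
  refine ⟨t0, fun h => hc (by rw [h]; simp), ?_⟩
  apply mo.toSyn.injective
  apply le_antisymm
  · refine le_trans mo.degree_sum_le (Finset.sup_le fun s _ => ?_)
    by_cases hks : κ s = 0
    · rw [hks, zero_smul, mo.degree_zero, map_zero]; exact bot_le
    · exact le_trans mo.degree_smul_le (hmax s (by simpa using hks))
  · exact mo.le_degree (MvPolynomial.mem_support_iff.2 hc)

lemma det_ne_zero_of_mod_two (μ : Matrix (Fin 3) (Fin 3) ℤ)
    (h : ∀ a t, ((μ a t : ℤ) : ZMod 2) = if a = t then 1 else 0) : μ.det ≠ 0 := by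
  intro h0
  have h1 := (Int.castRingHom (ZMod 2)).map_det μ
  have h2 : (Int.castRingHom (ZMod 2)).mapMatrix μ = 1 := by
    ext a t
    simp [h, Matrix.one_apply]
  rw [h0, h2, Matrix.det_one, map_zero] at h1
  exact zero_ne_one h1

lemma exists_kernel {ι β : Type} [Fintype ι] [Fintype β] (h : Fintype.card β < Fintype.card ι)
    (v : ι → β → ℤ) : ∃ κ : ι → ℤ, (∃ t, κ t ≠ 0) ∧ ∀ b, ∑ t, κ t * v t b = 0 := by
  have hn : ¬ LinearIndependent ℤ v := by
    intro hl
    have := hl.fintype_card_le_finrank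
    rw [Module.finrank_fintype_fun_eq_card] at this
    omega
  obtain ⟨κ, h1, h2⟩ := Fintype.not_linearIndependent_iff.1 hn
  refine ⟨κ, h2, fun b => ?_⟩
  have := congrFun h1 b
  simpa [Finset.sum_apply] using this

/-- invariant of the construction -/
structure Inv (w : ℕ) (e : Fin 3 → Al ℤ) : Prop where
  pos : 1 ≤ w
  hom : ∀ i, e i ∈ Sup ℤ (fun n => n = w)
  ne : ∀ i, ev (e i) ≠ 0
  par : ∀ a t, ((mo.degree (ev (e a)) t : ℕ) : ZMod 2) = if a = t then 1 else 0

lemma Inv_base : Inv 1 (fun i => single (FreeMonoid.of i) 1) := by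
  have hev : ∀ i, ev (single (FreeMonoid.of i) 1) = MvPolynomial.X i := by
    intro i
    rw [ev, MonoidAlgebra.lift_single, FreeMonoid.lift_eval_of, one_smul]
  refine ⟨le_rfl, fun i => single_mem_Sup _ (FreeMonoid.length_of i), fun i => ?_, fun a t => ?_⟩
  · rw [hev]; exact MvPolynomial.X_ne_zero i
  · rw [hev, mo.degree_X, Finsupp.single_apply]
    split_ifs <;> simp

/-- the monomial in the `e i` with exponent vector `μ` -/
def mon (e : Fin 3 → Al ℤ) (μ : Fin 3 → ℕ) : Al ℤ := e 0 ^ μ 0 * e 1 ^ μ 1 * e 2 ^ μ 2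

lemma mon_mem_range (e : Fin 3 → Al ℤ) (μ : Fin 3 → ℕ) : mon e μ ∈ (Th e).range :=
  mul_mem (mul_mem (pow_mem (mem_Th_range e 0) _) (pow_mem (mem_Th_range e 1) _))
    (pow_mem (mem_Th_range e 2) _)

lemma mon_hom {w : ℕ} {e : Fin 3 → Al ℤ} (h : Inv w e) (μ : Fin 3 → ℕ) :
    mon e μ ∈ Sup ℤ (fun n => n = (μ 0 + μ 1 + μ 2) * w) := by
  refine Sup_mul (p := fun n => n = (μ 0 + μ 1) * w) (fun i j hi hj => by rw [hi, hj]; ring)
    (Sup_mul (fun i j hi hj => by rw [hi, hj]; ring) (Sup_pow_eq (h.hom 0) _)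
      (Sup_pow_eq (h.hom 1) _)) (Sup_pow_eq (h.hom 2) _)

lemma mon_ne {w : ℕ} {e : Fin 3 → Al ℤ} (h : Inv w e) (μ : Fin 3 → ℕ) : ev (mon e μ) ≠ 0 := by
  simp only [mon, map_mul, map_pow]
  exact mul_ne_zero (mul_ne_zero (pow_ne_zero _ (h.ne 0)) (pow_ne_zero _ (h.ne 1)))
    (pow_ne_zero _ (h.ne 2))

lemma mon_deg {w : ℕ} {e : Fin 3 → Al ℤ} (h : Inv w e) (μ : Fin 3 → ℕ) (t : Fin 3) :
    mo.degree (ev (mon e μ)) t = μ 0 * mo.degree (ev (e 0)) t + μ 1 * mo.degree (ev (e 1)) t +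
      μ 2 * mo.degree (ev (e 2)) t := by
  simp only [mon, map_mul, map_pow]
  rw [mo.degree_mul (mul_ne_zero (pow_ne_zero _ (h.ne 0)) (pow_ne_zero _ (h.ne 1)))
    (pow_ne_zero _ (h.ne 2)), mo.degree_mul (pow_ne_zero _ (h.ne 0)) (pow_ne_zero _ (h.ne 1)),
    mo.degree_pow, mo.degree_pow, mo.degree_pow]
  simp

lemma mon_deg_inj {w : ℕ} {e : Fin 3 → Al ℤ} (h : Inv w e) {μ ν : Fin 3 → ℕ}
    (hd : mo.degree (ev (mon e μ)) = mo.degree (ev (mon e ν))) : μ = ν := by
  let M : Matrix (Fin 3) (Fin 3) ℤ := fun a t => (mo.degree (ev (e a)) t : ℤ)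
  have hM : M.det ≠ 0 := det_ne_zero_of_mod_two M (fun a t => by
    simp only [M, Int.cast_natCast]; exact h.par a t)
  have hv : Matrix.vecMul (fun a => (μ a : ℤ) - (ν a : ℤ)) M = 0 := by
    funext t
    have h1 := mon_deg h μ t
    have h2 := mon_deg h ν t
    rw [hd, h2] at h1
    simp only [Matrix.vecMul, dotProduct, Fin.sum_univ_three, M, Pi.zero_apply]
    have h3 := congrArg (Nat.cast : ℕ → ℤ) h1
    push_cast at h3
    linarith
  have := Matrix.eq_zero_of_vecMul_eq_zero hM hv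
  funext a
  have h4 := congrFun this a
  simp only [Pi.zero_apply] at h4
  omega

/-- exponent vectors congruent to the unit vector `a` modulo two -/
def ex (q : ℕ) (a : Fin 3) (t : Fin q × Fin q) : Fin 3 → ℕ := fun b =>
  if b = a then 2 * (2 * q - t.1 - t.2) + 1 else if b = a + 1 then 2 * t.1 else 2 * t.2

lemma ex_sum (q : ℕ) (a : Fin 3) (t : Fin q × Fin q) :
    ex q a t 0 + ex q a t 1 + ex q a t 2 = 4 * q + 1 := by
  have h1 := t.1.2
  have h2 := t.2.2
  fin_cases a <;> simp [ex] <;> omega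

lemma ex_inj (q : ℕ) (a : Fin 3) : Function.Injective (ex q a) := by
  intro s t h
  have h1 := congrFun h (a + 1)
  have h2 := congrFun h (a + 2)
  have e1 : a + 1 ≠ a := by fin_cases a <;> decide
  have e2 : a + 2 ≠ a := by fin_cases a <;> decide
  have e3 : a + 2 ≠ a + 1 := by fin_cases a <;> decide
  simp only [ex, if_neg e1, if_neg e2, if_neg e3, if_true] at h1 h2
  ext <;> omega

lemma ex_par (q : ℕ) (a : Fin 3) (t : Fin q × Fin q) (b : Fin 3) :
    ((ex q a t b : ℕ) : ZMod 2) = if a = b then 1 else 0 := by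
  have h2 : (2 : ZMod 2) = 0 := rfl
  unfold ex
  by_cases h : b = a
  · subst h; simp [h2]
  · have h' : ¬ a = b := fun h' => h h'.symm
    rw [if_neg h, if_neg h']
    split_ifs <;> simp [h2]

lemma exists_words (d : ℕ) : ∃ D : Finset Wd, ∀ x : Wd, x.length ≤ d → x ∈ D := by
  have h : Set.Finite {l : List (Fin 3) | l.length ≤ d} := List.finite_length_le _ d
  refine ⟨(h.image FreeMonoid.ofList).toFinset, fun x hx => ?_⟩
  rw [Set.Finite.mem_toFinset]
  exact ⟨x.toList, hx, rfl⟩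

theorem step {w : ℕ} {e : Fin 3 → Al ℤ} (h : Inv w e) {f : Al ℤ}
    (hf1 : f ∈ Sup ℤ (fun n => 1 ≤ n)) :
    ∃ (w' : ℕ) (e' : Fin 3 → Al ℤ), Inv w' e' ∧ w < w' ∧ (∀ i, e' i ∈ (Th e).range) ∧
      ∀ g, PB w' f (Th e' g) := by
  classical
  obtain ⟨d, hf⟩ := exists_Sup_le f
  obtain ⟨D, hD⟩ := exists_words d
  have hw := h.pos
  obtain ⟨q, hq1, hq2⟩ : ∃ q : ℕ, d < q ∧ D.card * (((4 * q + 1) * w + 1) * D.card) < q * q := by
    refine ⟨D.card * D.card * (6 * w) + d + 1, by omega, ?_⟩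
    generalize D.card = C
    set q := C * C * (6 * w) + d + 1 with hq
    have hq0 : 1 ≤ q := by omega
    have h1 : (4 * q + 1) * w + 1 ≤ q * (6 * w) := by nlinarith
    calc C * (((4 * q + 1) * w + 1) * C) ≤ C * ((q * (6 * w)) * C) := by gcongr
      _ = q * (C * C * (6 * w)) := by ring
      _ < q * q := by
        apply Nat.mul_lt_mul_of_pos_left (by omega) (by omega)
  set w' := (4 * q + 1) * w with hw'
  have hqw : q < w' := by nlinarith
  have hww : w < w' := by nlinarith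
  have hmonhom : ∀ a t, mon e (ex q a t) ∈ Sup ℤ (fun n => n = w') := by
    intro a t
    have := mon_hom h (ex q a t)
    rwa [ex_sum] at this
  have key : ∀ a : Fin 3, ∃ κ : Fin q × Fin q → ℤ, (∃ t, κ t ≠ 0) ∧
      Kill d f (∑ t, κ t • mon e (ex q a t)) := by
    intro a
    obtain ⟨κ, h1, h2⟩ := exists_kernel (ι := Fin q × Fin q) (β := D × Fin (w' + 1) × D)
      (by simpa using hq2)
      (fun t b => pair ℤ (mon e (ex q a t)) (single b.1.1 1 * f ^ (b.2.1 : ℕ) * single b.2.2.1 1))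
    refine ⟨κ, h1, fun p p' n hp hp' => ?_⟩
    rw [pair_sum_left]
    simp only [pair_smul_left, Int.cast_id]
    by_cases hn : n < w' + 1
    · exact h2 (⟨p, hD p hp⟩, ⟨n, hn⟩, ⟨p', hD p' hp'⟩)
    · refine Finset.sum_eq_zero (fun t _ => ?_)
      rw [pair_eq_zero (q := fun m => w' < m) (fun m h1 h2 => by omega) (hmonhom a t), mul_zero]
      exact Sup_mul (fun i j hi _ => by omega) (sandwich_mem hf1 p n) (mem_Sup_true _)
  choose κ hκ hK using key
  let e' : Fin 3 → Al ℤ := fun a => ∑ t, κ a t • mon e (ex q a t)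
  have hhom : ∀ a, e' a ∈ Sup ℤ (fun n => n = w') := fun a =>
    Submodule.sum_mem _ (fun t _ => Submodule.smul_mem _ _ (hmonhom a t))
  have hdeg : ∀ a, ∃ t, ev (e' a) ≠ 0 ∧
      mo.degree (ev (e' a)) = mo.degree (ev (mon e (ex q a t))) := by
    intro a
    have := sum_degree (fun t => ev (mon e (ex q a t))) (fun t => mon_ne h _)
      (fun s t hst => ex_inj q a (mon_deg_inj h hst)) (κ a) (hκ a)
    simpa only [e', map_sum, map_smul] using this
  refine ⟨w', e', ⟨by omega, hhom, fun a => (hdeg a).choose_spec.1, fun a b => ?_⟩, hww,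
    fun a => ?_, PB_Th (by omega) hhom hf1 hf hK⟩
  · obtain ⟨t, _, ht⟩ := hdeg a
    rw [ht, mon_deg h]
    push_cast
    rw [ex_par, ex_par, ex_par, h.par, h.par, h.par]
    fin_cases a <;> fin_cases b <;> simp
  · exact Subalgebra.sum_mem _ (fun t _ => Subalgebra.smul_mem _ (mon_mem_range e _) _)

end Pool.Agent.Lib.MP_99e35a_al
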