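import Pool.Agent.Lib.MP_99e35a_al.Step

set_option autoImplicit false

noncomputable section

namespace Pool.Agent.Lib.MP_99e35a_al

open MonoidAlgebra

instance : Countable Wd := inferInstanceAs (Countable (List (Fin 3)))

instance : Countable (Al ℤ) := (MonoidAlgebra.coeffEquiv (R := ℤ) (M := Wd)).countable_iff.2
  inferInstance

theorem tower : ∃ (w : ℕ → ℕ) (φ : ℕ → Al ℤ), StrictMono w ∧
    (∀ k, φ k ∈ Sup ℤ (fun n => n = w k)) ∧ (∀ k, ev (φ k) ≠ 0) ∧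
    ∀ f ∈ Sup ℤ (fun n => 1 ≤ n), ∃ N, ∀ (k : ℕ) (u : Wd) (y : Al ℤ),
      pair ℤ (φ k) (single u 1 * f ^ N * y) = 0 := by
  let T := {x : ℕ × (Fin 3 → Al ℤ) // Inv x.1 x.2}
  obtain ⟨F, hF⟩ := exists_surjective_nat (Sup ℤ (fun n => 1 ≤ n))
  have hstep : ∀ (x : T) (k : ℕ), ∃ x' : T, x.1.1 < x'.1.1 ∧
      (∀ i, x'.1.2 i ∈ (Th x.1.2).range) ∧ ∀ g, PB x'.1.1 (F k) (Th x'.1.2 g) := by
    intro x k
    obtain ⟨w', e', h1, h2, h3, h4⟩ := step x.2 (F k).2
    exact ⟨⟨(w', e'), h1⟩, h2, h3, h4⟩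
  choose st h1 h2 h3 using hstep
  let s : ℕ → T := fun k => Nat.rec ⟨(1, fun i => single (FreeMonoid.of i) 1), Inv_base⟩
    (fun k x => st x k) k
  have hs : ∀ k, s (k + 1) = st (s k) k := fun k => rfl
  have hmono : StrictMono (fun k => (s k).1.1) :=
    strictMono_nat_of_lt_succ (fun k => by rw [hs]; exact h1 _ _)
  have hrange : ∀ i k, i ≤ k → (Th (s k).1.2).range ≤ (Th (s i).1.2).range := by
    intro i k hik
    induction k, hik using Nat.le_induction with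
    | base => exact le_rfl
    | succ k _ ih => exact le_trans (Th_range_le (by rw [hs]; exact h2 _ _)) ih
  refine ⟨fun k => (s k).1.1, fun k => (s k).1.2 0, hmono, fun k => (s k).2.hom 0,
    fun k => (s k).2.ne 0, fun f hf => ?_⟩
  obtain ⟨i, hi⟩ := hF ⟨f, hf⟩
  refine ⟨2 * (s (i + 1)).1.1, fun k u y => ?_⟩
  by_cases hk : i + 1 ≤ k
  · obtain ⟨g, hg⟩ := hrange (i + 1) k hk (mem_Th_range _ 0)
    have h4 := h3 (s i) i g
    rw [← hs, hi] at h4
    have hg' : Th (s (i + 1)).1.2 g = (s k).1.2 0 := hg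
    rw [hg'] at h4
    exact h4 u _ y le_rfl
  · have h5 : (s k).1.1 < (s (i + 1)).1.1 := hmono (show k < i + 1 by omega)
    refine pair_eq_zero (q := fun n => (s k).1.1 < n) (fun n h1 h2 => by omega)
      ((s k).2.hom 0) ?_
    exact Sup_mul (fun a b ha _ => by omega) (sandwich_mem hf u _) (mem_Sup_true y)

end Pool.Agent.Lib.MP_99e35a_al
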